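import Pool.Agent.H56.Plk6

set_option autoImplicit false

namespace Pool.Agent.Results.MP_a4e3f3_an.NoNorming
open Set Pool.Agent.H56.Plk

/-- `(e, φ)` is an M-basis of `Z`: biorthogonal, linearly dense and separating points. -/
def IsMBasis {Z A : Type} [NormedAddCommGroup Z] [NormedSpace ℝ Z] (e : A → Z)
    (φ : A → Z →L[ℝ] ℝ) : Prop :=
  (∀ a, φ a (e a) = 1) ∧ (∀ a b, a ≠ b → φ a (e b) = 0) ∧
    Dense (Submodule.span ℝ (range e) : Set Z) ∧ ∀ z, (∀ a, φ a z = 0) → z = 0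

/-- The span of the functionals `φ a` is `l`-norming. -/
def IsNorming {Z A : Type} [NormedAddCommGroup Z] [NormedSpace ℝ Z] (φ : A → Z →L[ℝ] ℝ)
    (l : ℝ) : Prop :=
  ∀ z : Z, l * ‖z‖ ≤ sSup {r : ℝ | ∃ f ∈ Submodule.span ℝ (range φ), ‖f‖ ≤ 1 ∧ r = |f z|}

/-- `Z` admits an M-basis that is `l`-norming for some `l ∈ (0,1]`. -/
def HasNormingMBasis (Z : Type) [NormedAddCommGroup Z] [NormedSpace ℝ Z] : Prop :=
  ∃ (A : Type) (e : A → Z) (φ : A → Z →L[ℝ] ℝ) (l : ℝ),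
    IsMBasis e φ ∧ 0 < l ∧ l ≤ 1 ∧ IsNorming φ l

/-- `E` has a closed linear subspace that admits no norming M-basis. -/
def HasBadSubspace (E : Type) [NormedAddCommGroup E] [NormedSpace ℝ E] : Prop :=
  ∃ Z : Submodule ℝ E, IsClosed (Z : Set E) ∧ ¬ HasNormingMBasis Z

lemma pl_of {Z A : Type} [NormedAddCommGroup Z] [NormedSpace ℝ Z] (e : A → Z)
    (φ : A → Z →L[ℝ] ℝ) (h : IsMBasis e φ) (c : ℝ) (hc : 0 < c) (h2 : IsNorming φ c) : Pl Z := by
  refine ⟨range e, Submodule.span ℝ (range φ), c / 2, by positivity, h.2.2.1, fun x => ?_,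
    fun f hf => Finite.countable ?_⟩
  · rcases (norm_nonneg x).eq_or_lt with h | h
    · exact ⟨0, Submodule.zero_mem _, by simp, by simp [← h]⟩
    · obtain ⟨_, ⟨f, hf, f1, rfl⟩, f2⟩ := exists_lt_of_lt_csSup
        (s := {r : ℝ | ∃ f ∈ Submodule.span ℝ (range φ), ‖f‖ ≤ 1 ∧ r = |f x|})
        ⟨_, 0, Submodule.zero_mem _, by simp, rfl⟩
        ((show c / 2 * ‖x‖ < c * ‖x‖ by nlinarith).trans_le (h2 x))
      exact ⟨f, hf, f1, f2.le⟩
  · induction hf using Submodule.span_induction with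
    | mem f hf =>
      obtain ⟨a, rfl⟩ := hf
      refine (finite_singleton (e a)).subset ?_
      rintro _ ⟨⟨b, rfl⟩, hb⟩
      by_contra hn
      exact hb (h.2.1 a b (by rintro rfl; exact hn rfl))
    | zero => simp
    | add f g _ _ hf hg =>
      refine (hf.union hg).subset fun s hs => ?_
      by_cases h : f s = 0
      · exact Or.inr ⟨hs.1, by simpa [h] using hs.2⟩
      · exact Or.inl ⟨hs.1, h⟩
    | smul r f _ hf => exact hf.subset fun s hs => ⟨hs.1, fun h => hs.2 (by simp [h])⟩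

theorem result (Γ : Type) [Uncountable Γ] :
    HasBadSubspace (lp (fun _ : Γ => ℝ) 1) := by
  obtain ⟨Z, hZ, hn⟩ := main2 Γ
  exact ⟨Z, hZ, fun ⟨_, e, φ, l, h, hl, _, h2⟩ => hn (pl_of e φ h l hl h2)⟩

end Pool.Agent.Results.MP_a4e3f3_an.NoNorming
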